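import Pool.Agent.H8.TD.Targets

/-!
# Module LDG: the degree of a map as an intersection number
-/

set_option autoImplicit false

open MvPolynomial
open Pool.Agent.H12.ZD (pmap v O Res DenseOrbit NoInv)
open Pool.Agent.H18.HIT
open Pool.Agent.H8.ZA (HFam Const NA sz)
open Pool.Agent.H8.TD

namespace Pool.Agent.H10.TD

/-! ## Dehomogenization and common factors -/

section hom

variable {k : Type} [Field k]

/-- the field of rational functions in four variables -/
abbrev F4 (k : Type) [Field k] : Type := FractionRing (Po 4 k)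

/-- the substitution of `X_(i+1) / X_0` for `X_i` -/
noncomputable def psi : Po 3 k →ₐ[k] F4 k :=
  aeval fun i => algebraMap (Po 4 k) (F4 k) (X i.succ) / algebraMap (Po 4 k) (F4 k) (X 0)

theorem x0_ne : algebraMap (Po 4 k) (F4 k) (X 0) ≠ 0 := by
  rw [Ne, map_eq_zero_iff _ (IsFractionRing.injective (Po 4 k) (F4 k))]
  exact X_ne_zero 0

theorem dh_X0 : dh (X 0 : Po 4 k) = 1 := by
  simp [dh]

theorem dh_Xs (i : Fin 3) : dh (X i.succ : Po 4 k) = X i := by
  simp [dh]

theorem hom_scale {K : Type} [Field K] [Algebra k K] (G : Po 4 k) (D : ℕ)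
    (hG : G.IsHomogeneous D) (x : Fin 4 → K) (c : K) :
    aeval (fun j => c * x j) G = c ^ D * aeval x G := by
  rw [aeval_def, eval₂_eq', aeval_def, eval₂_eq', Finset.mul_sum]
  refine Finset.sum_congr rfl fun m hm => ?_
  have h1 : ∑ i, m i = D := by
    have h2 : Finsupp.weight (fun _ => 1) m = D := hG (mem_support_iff.1 hm)
    rw [← Finsupp.degree_eq_weight_one] at h2
    rw [← Finsupp.degree_eq_sum]
    exact h2
  simp_rw [mul_pow]
  rw [Finset.prod_mul_distrib, Finset.prod_pow_eq_pow_sum, h1]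
  ring

theorem psi_dh (G : Po 4 k) (D : ℕ) (hG : G.IsHomogeneous D) :
    algebraMap (Po 4 k) (F4 k) (X 0) ^ D * psi (dh G) = algebraMap (Po 4 k) (F4 k) G := by
  have e1 : psi (dh G) = aeval (fun j : Fin 4 => (algebraMap (Po 4 k) (F4 k) (X 0))⁻¹ *
      algebraMap (Po 4 k) (F4 k) (X j)) G := by
    have : (psi.comp dh : Po 4 k →ₐ[k] F4 k) = aeval (fun j : Fin 4 =>
        (algebraMap (Po 4 k) (F4 k) (X 0))⁻¹ * algebraMap (Po 4 k) (F4 k) (X j)) := by
      apply MvPolynomial.algHom_ext
      intro j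
      rw [AlgHom.comp_apply, aeval_X]
      refine Fin.cases ?_ (fun i => ?_) j
      · rw [dh_X0, map_one, inv_mul_cancel₀ x0_ne]
      · rw [dh_Xs, psi, aeval_X, div_eq_inv_mul]
    exact DFunLike.congr_fun this G
  have e2 : aeval (fun j : Fin 4 => algebraMap (Po 4 k) (F4 k) (X j)) G =
      algebraMap (Po 4 k) (F4 k) G := by
    have : (aeval (fun j : Fin 4 => algebraMap (Po 4 k) (F4 k) (X j)) : Po 4 k →ₐ[k] F4 k) =
        IsScalarTower.toAlgHom k (Po 4 k) (F4 k) := by
      apply MvPolynomial.algHom_ext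
      intro j
      rw [aeval_X]
      rfl
    exact DFunLike.congr_fun this G
  rw [e1, hom_scale G D hG, e2, ← mul_assoc, ← mul_pow, mul_inv_cancel₀ x0_ne, one_pow, one_mul]

theorem psi_clear (f : Po 3 k) : ∃ (n : ℕ) (F : Po 4 k),
    algebraMap (Po 4 k) (F4 k) (X 0) ^ n * psi f = algebraMap (Po 4 k) (F4 k) F ∧ dh F = f := by
  induction f using MvPolynomial.induction_on with
  | C a =>
    refine ⟨0, C a, ?_, ?_⟩
    · rw [pow_zero, one_mul, ← MvPolynomial.algebraMap_eq, ← MvPolynomial.algebraMap_eq,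
        AlgHom.commutes, ← IsScalarTower.algebraMap_apply]
    · rw [← MvPolynomial.algebraMap_eq, ← MvPolynomial.algebraMap_eq, AlgHom.commutes]
  | add p q hp hq =>
    obtain ⟨n, F, h1, h2⟩ := hp
    obtain ⟨m, F', h3, h4⟩ := hq
    refine ⟨n + m, X 0 ^ m * F + X 0 ^ n * F', ?_, ?_⟩
    · rw [map_add, map_add, map_mul, map_mul, map_pow, map_pow, ← h1, ← h3]
      ring
    · rw [map_add, map_mul, map_mul, map_pow, map_pow, dh_X0, one_pow, one_pow, one_mul, one_mul,
        h2, h4]
  | mul_X p i hp =>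
    obtain ⟨n, F, h1, h2⟩ := hp
    refine ⟨n + 1, F * X i.succ, ?_, ?_⟩
    · have e : psi (X i : Po 3 k) = algebraMap (Po 4 k) (F4 k) (X i.succ) /
          algebraMap (Po 4 k) (F4 k) (X 0) := by rw [psi, aeval_X]
      rw [map_mul, map_mul, e, ← h1, pow_succ]
      have h0 := x0_ne (k := k)
      field_simp
    · rw [map_mul, dh_Xs, h2]

/-- no common factor after dehomogenization -/
theorem no_common {G : Tup 4 k} {D : ℕ} (hG : ∀ i, (G i).IsHomogeneous D) (hcop : Cop G)
    (π : Po 3 k) (hπ : Irreducible π) : ∃ i, ¬ π ∣ dh (G i) := by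
  by_contra hcon
  push Not at hcon
  obtain ⟨n, P, hP1, hP2⟩ := psi_clear π
  have hP0 : P ≠ 0 := by
    rintro rfl
    rw [map_zero] at hP2
    exact hπ.ne_zero hP2.symm
  have hX : Prime (X 0 : Po 4 k) := X_prime
  obtain ⟨a, P', hP'1, hP'2⟩ := WfDvdMonoid.max_power_factor hP0 hX.irreducible
  have hdP' : dh P' = π := by
    rw [← hP2, hP'2, map_mul, map_pow, dh_X0, one_pow, one_mul]
  have hu : ¬ IsUnit P' := fun h => hπ.not_isUnit (hdP' ▸ h.map dh)
  have hP'0 : P' ≠ 0 := by
    rintro rfl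
    exact hP'1 (dvd_zero _)
  obtain ⟨Q, hQ, hQP⟩ := WfDvdMonoid.exists_irreducible_factor hu hP'0
  have hQX : ¬ Q ∣ X 0 := by
    intro h
    exact hP'1 (((hQ.associated_of_dvd hX.irreducible h).symm.dvd).trans hQP)
  obtain ⟨i, hi⟩ := hcop Q hQ
  apply hi
  obtain ⟨h, hh⟩ := hcon i
  obtain ⟨m, H, hH1, -⟩ := psi_clear h
  have e : X 0 ^ (n + m) * G i = X 0 ^ D * (P * H) := by
    apply IsFractionRing.injective (Po 4 k) (F4 k)
    rw [map_mul, map_pow, ← psi_dh (G i) D (hG i), hh, map_mul, map_mul, map_mul, map_pow, ← hP1,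
      ← hH1]
    ring
  have h1 : Q ∣ X 0 ^ (n + m) * G i := by
    rw [e, hP'2]
    exact ((hQP.mul_left _).mul_right H).mul_left _
  have hQp : Prime Q := UniqueFactorizationMonoid.irreducible_iff_prime.1 hQ
  exact (hQp.dvd_or_dvd h1).resolve_left fun h => hQX (hQp.dvd_of_dvd_pow h)

/-- a form not divisible by `X_0` is not zero in some direction -/
theorem exists_v [Infinite k] (G : Po 4 k) (hG : ¬ X 0 ∣ G) :
    ∃ w : Fin 3 → k, eval (Fin.cons 0 w : Fin 4 → k) G ≠ 0 := by
  by_contra hcon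
  push Not at hcon
  apply hG
  have h0 : aeval (Fin.cons 0 (fun i : Fin 3 => X i) : Fin 4 → Po 3 k) G = 0 := by
    apply MvPolynomial.funext
    intro w
    rw [map_zero, ← hcon w]
    have : ((eval w).comp (aeval (Fin.cons 0 (fun i : Fin 3 => X i) :
        Fin 4 → Po 3 k) : Po 4 k →ₐ[k] Po 3 k).toRingHom) = eval (Fin.cons 0 w : Fin 4 → k) := by
      apply MvPolynomial.ringHom_ext
      · intro r
        simp
      · intro j
        refine Fin.cases ?_ (fun i => ?_) j
        · simp
        · simp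
    exact DFunLike.congr_fun this G
  rw [← Ideal.mem_span_singleton, ← Ideal.Quotient.eq_zero_iff_mem]
  have h1 : (Ideal.Quotient.mkₐ k (Ideal.span {(X 0 : Po 4 k)})) =
      (aeval (fun j : Fin 3 => Ideal.Quotient.mkₐ k (Ideal.span {(X 0 : Po 4 k)}) (X j.succ))).comp
        (aeval (Fin.cons 0 (fun i : Fin 3 => X i) : Fin 4 → Po 3 k) : Po 4 k →ₐ[k] Po 3 k) := by
    apply MvPolynomial.algHom_ext
    intro j
    rw [AlgHom.comp_apply, aeval_X]
    refine Fin.cases ?_ (fun i => ?_) j
    · rw [Fin.cons_zero, map_zero]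
      exact Ideal.Quotient.eq_zero_iff_mem.2 (Ideal.mem_span_singleton_self _)
    · rw [Fin.cons_succ, aeval_X]
  have h2 := DFunLike.congr_fun h1 G
  rw [AlgHom.comp_apply, h0, map_zero] at h2
  exact h2

end hom

/-! ## Prime factors and fractions -/

theorem cop_abs {A B : Type} [CommRing A] [IsDomain A] [CommRing B] [IsDomain B]
    (Θ : A →+* B) (hinj : Function.Injective Θ)
    (hcl : ∀ F : B, ∃ m a : A, IsUnit (Θ m) ∧ Θ m * F = Θ a) (π q : A) (hπ : Prime π) (r : B)
    (hr : Prime r) (h1 : r ∣ Θ π) (h2 : r ∣ Θ q) : π ∣ q := by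
  obtain ⟨u, hu⟩ := h1
  obtain ⟨m1, a, hm1, ha⟩ := hcl r
  obtain ⟨m2, b, hm2, hb⟩ := hcl u
  have hnu : ∀ m : A, IsUnit (Θ m) → ¬ π ∣ m := by
    rintro m hm ⟨c, rfl⟩
    rw [map_mul] at hm
    have h3 : IsUnit (Θ π) := isUnit_of_mul_isUnit_left hm
    rw [hu] at h3
    exact hr.not_isUnit (isUnit_of_mul_isUnit_left h3)
  have e : m1 * m2 * π = a * b := by
    apply hinj
    rw [map_mul, map_mul, map_mul, ← ha, ← hb, hu]
    ring
  have h3 : π ∣ a * b := ⟨m1 * m2, by rw [← e]; ring⟩
  rcases hπ.dvd_or_dvd h3 with h4 | h4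
  · obtain ⟨a', rfl⟩ := h4
    have h5 : Θ π ∣ r := by
      rw [← hm1.dvd_mul_left, ha, map_mul]
      exact Dvd.intro _ rfl
    obtain ⟨F, hF⟩ := h5.trans h2
    obtain ⟨m3, c, hm3, hc⟩ := hcl F
    have e2 : m3 * q = π * c := by
      apply hinj
      rw [map_mul, map_mul, ← hc, hF]
      ring
    exact (hπ.dvd_or_dvd (⟨c, e2⟩ : π ∣ m3 * q)).resolve_left (hnu m3 hm3)
  · exfalso
    obtain ⟨b', rfl⟩ := h4
    obtain ⟨g, hg⟩ : Θ π ∣ u := by
      rw [← hm2.dvd_mul_left, hb, map_mul]
      exact Dvd.intro _ rfl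
    have hπ0 : Θ π ≠ 0 := by
      rw [Ne, map_eq_zero_iff Θ hinj]
      exact hπ.ne_zero
    have e3 : Θ π * (r * g) = Θ π * 1 := by
      rw [mul_one]
      calc Θ π * (r * g) = r * (Θ π * g) := by ring
        _ = r * u := by rw [← hg]
        _ = Θ π := hu.symm
    have e4 := mul_left_cancel₀ hπ0 e3
    exact hr.not_isUnit (IsUnit.of_mul_eq_one _ e4)

/-! ## Coordinates adapted to a direction -/

section frame

variable {k : Type} [Field k]

theorem frame (w : Fin 3 → k) (hw : w ≠ 0) : ∃ A S : Matrix (Fin 3) (Fin 3) k,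
    A * S = 1 ∧ S * A = 1 ∧ ∀ i, A i 2 = w i := by
  have key : ∀ A : Matrix (Fin 3) (Fin 3) k, A.det ≠ 0 → (∀ i, A i 2 = w i) →
      ∃ A S : Matrix (Fin 3) (Fin 3) k, A * S = 1 ∧ S * A = 1 ∧ ∀ i, A i 2 = w i := by
    intro A hA h
    have hu : IsUnit A.det := isUnit_iff_ne_zero.2 hA
    exact ⟨A, A⁻¹, Matrix.mul_nonsing_inv _ hu, Matrix.nonsing_inv_mul _ hu, h⟩
  by_cases h0 : w 0 = 0
  · by_cases h1 : w 1 = 0
    · have h2 : w 2 ≠ 0 := by
        intro h2
        apply hw
        funext i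
        fin_cases i
        · exact h0
        · exact h1
        · exact h2
      apply key !![1, 0, w 0; 0, 1, w 1; 0, 0, w 2]
      · rw [Matrix.det_fin_three]
        simpa using h2
      · intro i
        fin_cases i <;> rfl
    · apply key !![1, 0, w 0; 0, 0, w 1; 0, 1, w 2]
      · rw [Matrix.det_fin_three]
        simpa using h1
      · intro i
        fin_cases i <;> rfl
  · apply key !![0, 0, w 0; 1, 0, w 1; 0, 1, w 2]
    · rw [Matrix.det_fin_three]
      simpa using h0
    · intro i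
      fin_cases i <;> rfl

/-- a linear combination in general position -/
theorem exists_s [Infinite k] (P : Fin 4 → Po 3 k)
    (hP : ∀ π, Irreducible π → ∃ i, ¬ π ∣ P i) (g : Fin 4 → k) (hg : ∃ i, g i ≠ 0) :
    ∃ s : Fin 3 → k, (∀ π ∈ UniqueFactorizationMonoid.factors (P 0),
      ¬ π ∣ ∑ i : Fin 3, s i • P i.succ) ∧ (g 0 ≠ 0 ∨ ∑ i : Fin 3, s i * g i.succ ≠ 0) := by
  classical
  obtain ⟨L, hL⟩ : ∃ L : (Fin 3 → k) →ₗ[k] Po 3 k, ∀ s, L s = ∑ i : Fin 3, s i • P i.succ :=
    ⟨Fintype.linearCombination k (fun i : Fin 3 => P i.succ), fun s => rfl⟩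
  obtain ⟨ℓ, hℓ⟩ : ∃ ℓ : (Fin 3 → k) →ₗ[k] k, ∀ s, ℓ s = ∑ i : Fin 3, s i * g i.succ :=
    ⟨Fintype.linearCombination k (fun i : Fin 3 => g i.succ), fun s => rfl⟩
  have hL1 : ∀ i : Fin 3, L (Pi.single i 1) = P i.succ := by
    intro i
    rw [hL, Finset.sum_eq_single i]
    · rw [Pi.single_eq_same, one_smul]
    · intro j _ hj
      rw [Pi.single_eq_of_ne hj, zero_smul]
    · intro h
      exact absurd (Finset.mem_univ i) h
  have hℓ1 : ∀ i : Fin 3, ℓ (Pi.single i 1) = g i.succ := by
    intro i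
    rw [hℓ, Finset.sum_eq_single i]
    · rw [Pi.single_eq_same, one_mul]
    · intro j _ hj
      rw [Pi.single_eq_of_ne hj, zero_mul]
    · intro h
      exact absurd (Finset.mem_univ i) h
  obtain ⟨W, hW⟩ : ∃ W : Po 3 k → Submodule k (Fin 3 → k), ∀ π s, s ∈ W π ↔ π ∣ L s :=
    ⟨fun π => ((Ideal.span {π}).restrictScalars k).comap L, fun π s => by
      rw [Submodule.mem_comap, Submodule.restrictScalars_mem, Ideal.mem_span_singleton]⟩
  obtain ⟨W', hW', hWt⟩ : ∃ W' : Submodule k (Fin 3 → k),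
      (g 0 = 0 → ∀ s, s ∈ W' ↔ ℓ s = 0) ∧ W' ≠ ⊤ := by
    by_cases h0 : g 0 = 0
    · refine ⟨LinearMap.ker ℓ, fun _ s => LinearMap.mem_ker, fun htop => ?_⟩
      obtain ⟨i, hi⟩ := hg
      have hall : ∀ i, g i = 0 := by
        intro i
        refine Fin.cases h0 (fun j => ?_) i
        rw [← hℓ1 j]
        have : Pi.single j 1 ∈ LinearMap.ker ℓ := by rw [htop]; trivial
        exact this
      exact hi (hall i)
    · refine ⟨⊥, fun h => absurd h h0, fun htop => ?_⟩
      exact bot_ne_top htop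
  have hs : ⊤ ∉ insert W' ((UniqueFactorizationMonoid.factors (P 0)).toFinset.image W) := by
    intro htop
    rw [Finset.mem_insert] at htop
    rcases htop with htop | htop
    · exact hWt htop.symm
    · rw [Finset.mem_image] at htop
      obtain ⟨π, hπ, hπt⟩ := htop
      rw [Multiset.mem_toFinset] at hπ
      obtain ⟨i, hi⟩ := hP π (UniqueFactorizationMonoid.irreducible_of_factor π hπ)
      apply hi
      refine Fin.cases ?_ (fun j => ?_) i
      · exact UniqueFactorizationMonoid.dvd_of_mem_factors hπ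
      · rw [← hL1 j, ← hW, hπt]
        trivial
  have h1 := Subspace.biUnion_ne_univ_of_top_notMem hs
  rw [Set.ne_univ_iff_exists_notMem] at h1
  obtain ⟨s, hs⟩ := h1
  simp only [Set.mem_iUnion, not_exists, SetLike.mem_coe] at hs
  refine ⟨s, fun π hπ hd => ?_, ?_⟩
  · apply hs (W π) (Finset.mem_insert_of_mem (Finset.mem_image_of_mem W
      (Multiset.mem_toFinset.2 hπ)))
    rw [hW, hL]
    exact hd
  · by_cases h0 : g 0 = 0
    · right
      intro h2
      apply hs W' (Finset.mem_insert_self _ _)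
      rw [hW' h0, hℓ]
      exact h2
    · exact Or.inl h0

end frame

/-! ## Restriction to the generic line in the given direction -/

/-- forms on a line -/
theorem line_coeff {k κ : Type} [Field k] [Field κ] [Algebra k κ] (G : Po 4 k) (D : ℕ)
    (hG : G.IsHomogeneous D) (a : Fin 4 → κ) (u : Fin 4 → k) :
    (aeval (fun j => Polynomial.C (a j) + Polynomial.C (algebraMap k κ (u j)) *
      (Polynomial.X : Polynomial κ)) G).natDegree ≤ D ∧
    (aeval (fun j => Polynomial.C (a j) + Polynomial.C (algebraMap k κ (u j)) *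
      (Polynomial.X : Polynomial κ)) G).coeff D = algebraMap k κ (eval u G) := by
  classical
  have hpow : ∀ (j : Fin 4) (m : ℕ), ((Polynomial.C (a j) + Polynomial.C (algebraMap k κ (u j)) *
      (Polynomial.X : Polynomial κ)) ^ m).natDegree ≤ m ∧
      ((Polynomial.C (a j) + Polynomial.C (algebraMap k κ (u j)) *
      (Polynomial.X : Polynomial κ)) ^ m).coeff m = algebraMap k κ (u j) ^ m := by
    intro j m
    have h : (Polynomial.C (a j) + Polynomial.C (algebraMap k κ (u j)) *
        (Polynomial.X : Polynomial κ)).natDegree ≤ 1 := by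
      rw [add_comm]
      exact Polynomial.natDegree_linear_le
    constructor
    · have := Polynomial.natDegree_pow_le_of_le m h
      simpa using this
    · have := Polynomial.coeff_pow_of_natDegree_le (m := m) h
      rw [mul_one] at this
      rw [this]
      simp
  have hprod : ∀ m : Fin 4 → ℕ, (∏ j, (Polynomial.C (a j) + Polynomial.C (algebraMap k κ (u j)) *
      (Polynomial.X : Polynomial κ)) ^ m j).natDegree ≤ ∑ j, m j ∧
      (∏ j, (Polynomial.C (a j) + Polynomial.C (algebraMap k κ (u j)) *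
      (Polynomial.X : Polynomial κ)) ^ m j).coeff (∑ j, m j) =
        ∏ j, algebraMap k κ (u j) ^ m j := by
    intro m
    rw [Fin.prod_univ_four, Fin.sum_univ_four, Fin.prod_univ_four]
    obtain ⟨d0, c0⟩ := hpow 0 (m 0)
    obtain ⟨d1, c1⟩ := hpow 1 (m 1)
    obtain ⟨d2, c2⟩ := hpow 2 (m 2)
    obtain ⟨d3, c3⟩ := hpow 3 (m 3)
    have d01 := Polynomial.natDegree_mul_le_of_le d0 d1
    have d012 := Polynomial.natDegree_mul_le_of_le d01 d2
    refine ⟨Polynomial.natDegree_mul_le_of_le d012 d3, ?_⟩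
    rw [Polynomial.coeff_mul_add_eq_of_natDegree_le d012 d3,
      Polynomial.coeff_mul_add_eq_of_natDegree_le d01 d2,
      Polynomial.coeff_mul_add_eq_of_natDegree_le d0 d1, c0, c1, c2, c3]
  have hdeg : ∀ m ∈ G.support, ∑ i, m i = D := by
    intro m hm
    have h2 : Finsupp.weight (fun _ => 1) m = D := hG (mem_support_iff.1 hm)
    rw [← Finsupp.degree_eq_weight_one] at h2
    rw [← Finsupp.degree_eq_sum]
    exact h2
  have e : aeval (fun j => Polynomial.C (a j) + Polynomial.C (algebraMap k κ (u j)) *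
      (Polynomial.X : Polynomial κ)) G = ∑ m ∈ G.support,
      Polynomial.C (algebraMap k κ (coeff m G)) * ∏ j, (Polynomial.C (a j) +
        Polynomial.C (algebraMap k κ (u j)) * (Polynomial.X : Polynomial κ)) ^ m j := by
    rw [aeval_def, eval₂_eq']
    rfl
  constructor
  · rw [e]
    apply Polynomial.natDegree_sum_le_of_forall_le
    intro m hm
    refine (Polynomial.natDegree_C_mul_le _ _).trans ?_
    rw [← hdeg m hm]
    exact (hprod m).1
  · rw [e, Polynomial.finsetSum_coeff, eval_eq', map_sum]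
    refine Finset.sum_congr rfl fun m hm => ?_
    rw [Polynomial.coeff_C_mul, map_mul, map_prod]
    have h := (hprod m).2
    rw [hdeg m hm] at h
    rw [h]
    simp only [map_pow]

section coord

variable {k K : Type} [Field k] [Field K] [Algebra k K] (x : Fin 3 → K)
  (A S : Matrix (Fin 3) (Fin 3) k)

/-- the new coordinates -/
noncomputable def yy (l : Fin 3) : K := lc (S l) x

/-- the field generated by two coordinates -/
abbrev kap : IntermediateField k K := IntermediateField.adjoin k {yy x S 0, yy x S 1}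

/-- the first coordinate -/
noncomputable def ya : kap x S :=
  ⟨yy x S 0, IntermediateField.subset_adjoin k _ (Set.mem_insert _ _)⟩

/-- the second coordinate -/
noncomputable def yb : kap x S :=
  ⟨yy x S 1, IntermediateField.subset_adjoin k _ (Set.mem_insert_of_mem _ rfl)⟩

/-- the constant part of a coordinate -/
noncomputable def cst (j : Fin 3) : kap x S := A j 0 • ya x S + A j 1 • yb x S

/-- restriction to the generic line -/
noncomputable def Th : Po 3 k →ₐ[k] Polynomial (kap x S) :=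
  aeval fun j => Polynomial.C (cst x A S j) +
    Polynomial.C (algebraMap k (kap x S) (A j 2)) * Polynomial.X

theorem Th_X (j : Fin 3) : Th x A S (X j) = Polynomial.C (cst x A S j) +
    Polynomial.C (algebraMap k (kap x S) (A j 2)) * Polynomial.X := by
  rw [Th, aeval_X]

theorem Th_C (c : k) : Th x A S (C c) = Polynomial.C (algebraMap k (kap x S) c) := by
  rw [← MvPolynomial.algebraMap_eq, AlgHom.commutes]
  rfl

/-- the linear form of the new coordinate -/
noncomputable def lin (l : Fin 3) : Po 3 k := ∑ j, C (S l j) * X j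

theorem Th_lin (hSA : S * A = 1) (l : Fin 3) : Th x A S (lin S l) =
    Polynomial.C ((1 : Matrix (Fin 3) (Fin 3) k) l 0 • ya x S +
      (1 : Matrix (Fin 3) (Fin 3) k) l 1 • yb x S) +
    Polynomial.C (algebraMap k (kap x S) ((1 : Matrix (Fin 3) (Fin 3) k) l 2)) *
      Polynomial.X := by
  have e : ∀ i, (1 : Matrix (Fin 3) (Fin 3) k) l i = S l 0 * A 0 i + S l 1 * A 1 i +
      S l 2 * A 2 i := by
    intro i
    rw [← hSA, Matrix.mul_apply, Fin.sum_univ_three]
  rw [e 0, e 1, e 2, lin, Fin.sum_univ_three, map_add, map_add, map_mul, map_mul, map_mul,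
    Th_C, Th_C, Th_C, Th_X, Th_X, Th_X]
  simp only [cst, Algebra.smul_def, map_add, map_mul]
  ring

theorem Th_lin0 (hSA : S * A = 1) : Th x A S (lin S 0) = Polynomial.C (ya x S) := by
  rw [Th_lin x A S hSA]
  simp

theorem Th_lin1 (hSA : S * A = 1) : Th x A S (lin S 1) = Polynomial.C (yb x S) := by
  rw [Th_lin x A S hSA]
  simp

theorem Th_lin2 (hSA : S * A = 1) : Th x A S (lin S 2) = Polynomial.X := by
  rw [Th_lin x A S hSA]
  simp

theorem ev_Th (hAS : A * S = 1) (f : Po 3 k) :
    Polynomial.aeval (yy x S 2) (Th x A S f) = aeval x f := by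
  have h : ((Polynomial.aeval (yy x S 2) : Polynomial (kap x S) →ₐ[kap x S] K).toRingHom.comp
      (Th x A S).toRingHom) = (aeval x : Po 3 k →ₐ[k] K).toRingHom := by
    apply MvPolynomial.ringHom_ext
    · intro r
      change Polynomial.aeval (yy x S 2) (Th x A S (C r)) = aeval x (C r)
      rw [Th_C, Polynomial.aeval_C, aeval_C]
      rfl
    · intro j
      change Polynomial.aeval (yy x S 2) (Th x A S (X j)) = aeval x (X j)
      rw [Th_X, map_add, map_mul, Polynomial.aeval_C, Polynomial.aeval_C, Polynomial.aeval_X,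
        aeval_X]
      change A j 0 • yy x S 0 + A j 1 • yy x S 1 + algebraMap k K (A j 2) * yy x S 2 = x j
      rw [← Algebra.smul_def]
      have e : ∀ i, (1 : Matrix (Fin 3) (Fin 3) k) j i = A j 0 * S 0 i + A j 1 * S 1 i +
          A j 2 * S 2 i := by
        intro i
        rw [← hAS, Matrix.mul_apply, Fin.sum_univ_three]
      have e2 : A j 0 • yy x S 0 + A j 1 • yy x S 1 + A j 2 • yy x S 2 =
          ∑ i, (1 : Matrix (Fin 3) (Fin 3) k) j i • x i := by
        simp only [e, yy, lc, Fin.sum_univ_three, Algebra.smul_def, map_add, map_mul]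
        ring
      rw [e2, Finset.sum_eq_single j]
      · rw [Matrix.one_apply_eq, one_smul]
      · intro i _ hi
        rw [Matrix.one_apply_ne hi.symm, zero_smul]
      · intro h
        exact absurd (Finset.mem_univ j) h
  exact DFunLike.congr_fun h f

theorem Th_inj (hAS : A * S = 1) (hx : Function.Injective (aeval x : Po 3 k →ₐ[k] K)) :
    Function.Injective (Th x A S) := by
  intro f g h
  apply hx
  rw [← ev_Th x A S hAS, ← ev_Th x A S hAS, h]

/-- fractions of constants -/
def Cl (c : K) : Prop := ∃ (m a : Po 3 k) (m' a' : kap x S), Th x A S m = Polynomial.C m' ∧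
  Th x A S a = Polynomial.C a' ∧ m' ≠ 0 ∧ (m' : K) * c = (a' : K)

theorem cl_all (hSA : S * A = 1) (c : K) (hc : c ∈ kap x S) : Cl x A S c := by
  have hone : Th x A S 1 = Polynomial.C (1 : kap x S) := by rw [map_one, map_one]
  induction hc using IntermediateField.adjoin_induction with
  | mem z hz =>
    rcases hz with rfl | hz
    · exact ⟨1, lin S 0, 1, ya x S, hone, Th_lin0 x A S hSA, one_ne_zero, by
        rw [OneMemClass.coe_one, one_mul]; rfl⟩
    · rw [Set.mem_singleton_iff.1 hz]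
      exact ⟨1, lin S 1, 1, yb x S, hone, Th_lin1 x A S hSA, one_ne_zero, by
        rw [OneMemClass.coe_one, one_mul]; rfl⟩
  | algebraMap z =>
    exact ⟨1, C z, 1, algebraMap k _ z, hone, Th_C x A S z, one_ne_zero, by
      rw [OneMemClass.coe_one, one_mul]; rfl⟩
  | add y z _ _ hy hz =>
    obtain ⟨m, a, m', a', h1, h2, h3, h4⟩ := hy
    obtain ⟨n, b, n', b', h5, h6, h7, h8⟩ := hz
    refine ⟨m * n, a * n + b * m, m' * n', a' * n' + b' * m', ?_, ?_, mul_ne_zero h3 h7, ?_⟩
    · rw [map_mul, h1, h5, map_mul]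
    · rw [map_add, map_mul, map_mul, h1, h2, h5, h6, map_add, map_mul, map_mul]
    · push_cast
      rw [← h4, ← h8]
      ring
  | inv y _ hy =>
    obtain ⟨m, a, m', a', h1, h2, h3, h4⟩ := hy
    by_cases hy0 : y = 0
    · exact ⟨1, 0, 1, 0, hone, by rw [map_zero, map_zero], one_ne_zero, by
        rw [hy0, inv_zero, mul_zero]; rfl⟩
    · have hm : (m' : K) ≠ 0 := by
        intro h
        exact h3 (Subtype.ext h)
      have ha : a' ≠ 0 := by
        intro h
        rw [h] at h4
        exact mul_ne_zero hm hy0 h4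
      refine ⟨a, m, a', m', h2, h1, ha, ?_⟩
      rw [← h4, mul_assoc, mul_inv_cancel₀ hy0, mul_one]
  | mul y z _ _ hy hz =>
    obtain ⟨m, a, m', a', h1, h2, h3, h4⟩ := hy
    obtain ⟨n, b, n', b', h5, h6, h7, h8⟩ := hz
    refine ⟨m * n, a * b, m' * n', a' * b', ?_, ?_, mul_ne_zero h3 h7, ?_⟩
    · rw [map_mul, h1, h5, map_mul]
    · rw [map_mul, h2, h6, map_mul]
    · push_cast
      rw [← h4, ← h8]
      ring

theorem clear (hSA : S * A = 1) (F : Polynomial (kap x S)) :
    ∃ m a : Po 3 k, IsUnit (Th x A S m) ∧ Th x A S m * F = Th x A S a := by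
  induction F using Polynomial.induction_on' with
  | add p q hp hq =>
    obtain ⟨m, a, h1, h2⟩ := hp
    obtain ⟨n, b, h3, h4⟩ := hq
    refine ⟨m * n, a * n + b * m, ?_, ?_⟩
    · rw [map_mul]
      exact h1.mul h3
    · rw [map_add, map_mul, map_mul, map_mul, ← h2, ← h4]
      ring
  | monomial n c =>
    obtain ⟨m, a, m', a', h1, h2, h3, h4⟩ := cl_all x A S hSA (c : K) c.2
    refine ⟨m, a * lin S 2 ^ n, ?_, ?_⟩
    · rw [h1, Polynomial.isUnit_C]
      exact isUnit_iff_ne_zero.2 h3
    · rw [map_mul, map_pow, Th_lin2 x A S hSA, h1, h2, ← Polynomial.C_mul_X_pow_eq_monomial,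
        ← mul_assoc, ← Polynomial.C_mul]
      congr 2
      exact Subtype.ext h4

theorem tr_y (hAS : A * S = 1) (hSA : S * A = 1)
    (hx : Function.Injective (aeval x : Po 3 k →ₐ[k] K)) :
    Transcendental (kap x S) (yy x S 2) := by
  rw [transcendental_iff]
  intro F hF
  obtain ⟨m, a, h1, h2⟩ := clear x A S hSA F
  have h3 := congrArg (Polynomial.aeval (yy x S 2)) h2
  rw [map_mul, hF, mul_zero, ev_Th x A S hAS] at h3
  have h4 : a = 0 := by
    apply hx
    rw [← h3, map_zero]
  rw [h4, map_zero] at h2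
  exact (h1.mul_right_eq_zero).1 h2

theorem adj_top (hAS : A * S = 1) (hgen : ∀ z : K, ∃ f g : Po 3 k, z = aeval x f / aeval x g) :
    IntermediateField.adjoin (kap x S) {yy x S 2} = ⊤ := by
  rw [eq_top_iff]
  intro z _
  have hm : ∀ f : Po 3 k, aeval x f ∈ IntermediateField.adjoin (kap x S) {yy x S 2} := by
    intro f
    rw [← ev_Th x A S hAS]
    exact IntermediateField.algebra_adjoin_le_adjoin _ _
      (Polynomial.aeval_mem_adjoin_singleton _ _)
  obtain ⟨f, g, rfl⟩ := hgen z
  exact div_mem (hm f) (hm g)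

end coord

/-- the degree of a map as an intersection number -/
theorem pf_LDG (hRFD : T_RFD) (hADJ : T_ADJ) : T_LDG := by
  intro k _ _ _ G D hD hG hcop hG0
  obtain ⟨i₁, hi₁⟩ := hcop (X 0) (X_prime : Prime (X 0 : Po 4 k)).irreducible
  obtain ⟨w, hw⟩ := exists_v (G i₁) hi₁
  have hw0 : w ≠ 0 := by
    rintro rfl
    apply hw
    have h0 : (Fin.cons 0 (0 : Fin 3 → k) : Fin 4 → k) = fun j => 0 * (0 : Fin 4 → k) j := by
      funext j
      refine Fin.cases ?_ (fun i => ?_) j
      · simp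
      · simp
    have h1 := hom_scale (K := k) (G i₁) D (hG i₁) (0 : Fin 4 → k) 0
    rw [zero_pow (by omega), zero_mul] at h1
    rw [h0]
    exact h1
  obtain ⟨A, S, hAS, hSA, hAw⟩ := frame w hw0
  have hP0 : dh (G 0) ≠ 0 := by
    intro h
    have h1 := psi_dh (G 0) D (hG 0)
    rw [h, map_zero, mul_zero] at h1
    have h2 : G 0 = 0 := by
      apply IsFractionRing.injective (Po 4 k) (F4 k)
      rw [← h1, map_zero]
    exact hG0 h2
  obtain ⟨s, hs1, hs2⟩ := exists_s (fun i => dh (G i)) (fun π hπ => no_common hG hcop π hπ)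
    (fun i => eval (Fin.cons 0 w : Fin 4 → k) (G i)) ⟨i₁, hw⟩
  refine ⟨s, S 0, S 1, ?_⟩
  -- the coordinates
  have hxa : ∀ f : Po 3 k, aeval (xx k) f = algebraMap (Po 3 k) (K3 k) f := by
    intro f
    have : (aeval (xx k) : Po 3 k →ₐ[k] K3 k) = IsScalarTower.toAlgHom k (Po 3 k) (K3 k) := by
      apply MvPolynomial.algHom_ext
      intro j
      rw [aeval_X]
      rfl
    exact DFunLike.congr_fun this f
  have hx : Function.Injective (aeval (xx k) : Po 3 k →ₐ[k] K3 k) := by
    intro f g h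
    rw [hxa, hxa] at h
    exact IsFractionRing.injective (Po 3 k) (K3 k) h
  have hgen : ∀ z : K3 k, ∃ f g : Po 3 k, z = aeval (xx k) f / aeval (xx k) g := by
    intro z
    obtain ⟨f, g, -, hz⟩ := IsFractionRing.div_surjective (A := Po 3 k) z
    exact ⟨f, g, by rw [hxa, hxa, hz]⟩
  -- the homogeneous linear combination
  obtain ⟨Q, hQ⟩ : ∃ Q : Po 4 k, Q = ∑ i : Fin 3, s i • G i.succ := ⟨_, rfl⟩
  have hQh : Q.IsHomogeneous D := by
    rw [hQ]
    refine MvPolynomial.IsHomogeneous.sum _ _ _ fun i _ => ?_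
    rw [MvPolynomial.smul_eq_C_mul]
    have := (isHomogeneous_C (Fin 4) (s i)).mul (hG i.succ)
    rwa [zero_add] at this
  have hdQ : dh Q = ∑ i : Fin 3, s i • dh (G i.succ) := by
    rw [hQ, map_sum]
    exact Finset.sum_congr rfl fun i _ => by rw [map_smul]
  have hThdh : ∀ F : Po 4 k, Th (xx k) A S (dh F) =
      aeval (fun j => Polynomial.C ((Fin.cons 1 (cst (xx k) A S) : Fin 4 → kap (xx k) S) j) +
        Polynomial.C (algebraMap k (kap (xx k) S) ((Fin.cons 0 w : Fin 4 → k) j)) *
          Polynomial.X) F := by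
    intro F
    have : ((Th (xx k) A S).comp dh : Po 4 k →ₐ[k] Polynomial (kap (xx k) S)) =
        aeval (fun j => Polynomial.C ((Fin.cons 1 (cst (xx k) A S) : Fin 4 → kap (xx k) S) j) +
        Polynomial.C (algebraMap k (kap (xx k) S) ((Fin.cons 0 w : Fin 4 → k) j)) *
          Polynomial.X) := by
      apply MvPolynomial.algHom_ext
      intro j
      rw [AlgHom.comp_apply, aeval_X]
      refine Fin.cases ?_ (fun i => ?_) j
      · rw [dh_X0, map_one, Fin.cons_zero, Fin.cons_zero, map_zero, map_zero, zero_mul, add_zero,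
          map_one]
      · rw [dh_Xs, Fin.cons_succ, Fin.cons_succ, Th_X, hAw]
    exact DFunLike.congr_fun this F
  have hl0 := line_coeff (κ := kap (xx k) S) (G 0) D (hG 0) (Fin.cons 1 (cst (xx k) A S))
    (Fin.cons 0 w)
  have hlQ := line_coeff (κ := kap (xx k) S) Q D hQh (Fin.cons 1 (cst (xx k) A S))
    (Fin.cons 0 w)
  rw [← hThdh] at hl0 hlQ
  have htop : (Th (xx k) A S (dh (G 0))).coeff D ≠ 0 ∨ (Th (xx k) A S (dh Q)).coeff D ≠ 0 := by
    rw [hl0.2, hlQ.2]
    have hinj := (algebraMap k (kap (xx k) S)).injective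
    rcases hs2 with h | h
    · left
      rw [Ne, map_eq_zero_iff _ hinj]
      exact h
    · right
      rw [Ne, map_eq_zero_iff _ hinj, hQ, map_sum]
      simp only [MvPolynomial.smul_eval]
      exact h
  -- coprimality
  have hcopr : IsCoprime (Th (xx k) A S (dh (G 0))) (Th (xx k) A S (dh Q)) := by
    apply isCoprime_of_prime_dvd
    · rintro ⟨h, -⟩
      apply hP0
      apply Th_inj (xx k) A S hAS hx
      rw [h, map_zero]
    · intro r hr h1 h2
      have h3 : r ∣ Th (xx k) A S (UniqueFactorizationMonoid.factors (dh (G 0))).prod := by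
        have ha := (UniqueFactorizationMonoid.factors_prod hP0).symm.dvd
        exact h1.trans (map_dvd (Th (xx k) A S) ha)
      rw [map_multiset_prod] at h3
      obtain ⟨b, hb, hrb⟩ := hr.exists_mem_multiset_dvd h3
      rw [Multiset.mem_map] at hb
      obtain ⟨π, hπ, rfl⟩ := hb
      apply hs1 π hπ
      rw [← hdQ]
      exact cop_abs (Th (xx k) A S).toRingHom (Th_inj (xx k) A S hAS hx)
        (clear (xx k) A S hSA) π (dh Q) (UniqueFactorizationMonoid.prime_of_factor π hπ) r hr
        hrb h2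
  have hne : Polynomial.aeval (yy (xx k) S 2) (Th (xx k) A S (dh (G 0))) ≠ 0 := by
    rw [ev_Th (xx k) A S hAS]
    intro h
    apply hP0
    apply hx
    rw [h, map_zero]
  have hfin := hRFD (kap (xx k) S) (K3 k) (yy (xx k) S 2) (Th (xx k) A S (dh (G 0)))
    (Th (xx k) A S (dh Q)) D (tr_y (xx k) A S hAS hSA hx) (adj_top (xx k) A S hAS hgen) hD
    hcopr hl0.1 hlQ.1 htop hne
  rw [ev_Th (xx k) A S hAS, ev_Th (xx k) A S hAS, hxa, hxa] at hfin
  have hcc : algebraMap (Po 3 k) (K3 k) (dh Q) / algebraMap (Po 3 k) (K3 k) (dh (G 0)) =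
      lc s (fun i : Fin 3 => qt (G i.succ) (G 0)) := by
    rw [hdQ, lc, map_sum, Finset.sum_div]
    refine Finset.sum_congr rfl fun i _ => ?_
    have e : algebraMap (Po 3 k) (K3 k) (s i • dh (G i.succ)) =
        s i • algebraMap (Po 3 k) (K3 k) (dh (G i.succ)) :=
      map_smul (IsScalarTower.toAlgHom k (Po 3 k) (K3 k)) _ _
    rw [qt, e, smul_div_assoc]
  rw [hcc, hADJ] at hfin
  exact hfin

end Pool.Agent.H10.TD
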