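import Pool.Agent.H8.TD.Targets
import Pool.Agent.H19.ZA.LIN

/-!
# Module LNX: heights along a rational curve
-/

set_option autoImplicit false

open MvPolynomial
open Pool.Agent.H12.ZD (pmap v O Res DenseOrbit NoInv)
open Pool.Agent.H18.HIT
open Pool.Agent.H8.ZA (HFam Const NA sz)
open Pool.Agent.H8.TD

namespace Pool.Agent.H10.TD

open Pool.Agent.H8.ZA (log_sz_finite one_le_sz sz_pos)
open Pool.Agent.H19.ZA (abv_int na_int)

/-- the maximum of the absolute values of four numbers -/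
noncomputable def mx {L : Type} [Field L] (w : AbsoluteValue L ℝ) (y : Fin 4 → L) : ℝ :=
  max (w (y 0)) (max (w (y 1)) (max (w (y 2)) (w (y 3))))

theorem one_le_prodR {ι : Type} (s : Finset ι) (f : ι → ℝ) (h : ∀ i ∈ s, 1 ≤ f i) :
    1 ≤ ∏ i ∈ s, f i := by
  classical
  induction s using Finset.induction_on with
  | empty => simp
  | insert a s ha ih =>
    rw [Finset.prod_insert ha]
    exact one_le_mul_of_one_le_of_one_le (h a (Finset.mem_insert_self _ _))
      (ih fun i hi => h i (Finset.mem_insert_of_mem hi))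

theorem le_prodR {ι : Type} (s : Finset ι) (f : ι → ℝ) (h : ∀ i ∈ s, 1 ≤ f i) {a : ι}
    (ha : a ∈ s) : f a ≤ ∏ i ∈ s, f i := by
  classical
  rw [← Finset.mul_prod_erase s f ha]
  exact le_mul_of_one_le_right (zero_le_one.trans (h a ha))
    (one_le_prodR _ f fun i hi => h i (Finset.mem_of_mem_erase hi))

section gen

variable {L : Type} [Field L] (w : AbsoluteValue L ℝ)

theorem le_mx (y : Fin 4 → L) (i : Fin 4) : w (y i) ≤ mx w y := by
  unfold mx
  fin_cases i
  · exact le_max_left _ _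
  · exact le_max_of_le_right (le_max_left _ _)
  · exact le_max_of_le_right (le_max_of_le_right (le_max_left _ _))
  · exact le_max_of_le_right (le_max_of_le_right (le_max_right _ _))

theorem mx_le {y : Fin 4 → L} {B : ℝ} (h : ∀ i, w (y i) ≤ B) : mx w y ≤ B :=
  max_le (h 0) (max_le (h 1) (max_le (h 2) (h 3)))

theorem mx_eq {y : Fin 4 → L} (h0 : y 0 ≠ 0) :
    mx w y = w (y 0) * sz w (fun i => y i.succ / y 0) := by
  have hp : 0 < w (y 0) := w.pos h0
  unfold mx sz
  rw [mul_max_of_nonneg _ _ hp.le, mul_max_of_nonneg _ _ hp.le, mul_max_of_nonneg _ _ hp.le,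
    mul_one, map_div₀, map_div₀, map_div₀, mul_div_cancel₀ _ hp.ne', mul_div_cancel₀ _ hp.ne',
    mul_div_cancel₀ _ hp.ne']
  rfl

/-- product of the sizes of the coefficients -/
noncomputable def cn (q : Polynomial L) : ℝ :=
  ∏ j ∈ Finset.range (q.natDegree + 1), max 1 (w (q.coeff j))

theorem one_le_cn (q : Polynomial L) : 1 ≤ cn w q :=
  one_le_prodR _ _ fun _ _ => le_max_left _ _

theorem coeff_le_cn (q : Polynomial L) (j : ℕ) : w (q.coeff j) ≤ cn w q := by
  by_cases hj : j ∈ Finset.range (q.natDegree + 1)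
  · refine (le_max_right 1 _).trans ?_
    exact le_prodR _ (fun j => max 1 (w (q.coeff j))) (fun _ _ => le_max_left _ _) hj
  · rw [Polynomial.coeff_eq_zero_of_natDegree_lt, map_zero]
    · exact zero_le_one.trans (one_le_cn w q)
    · rw [Finset.mem_range] at hj
      omega

theorem na_sum (hw : NA w) {ι : Type} (s : Finset ι) (f : ι → L) (B : ℝ) (hB : 0 ≤ B)
    (h : ∀ i ∈ s, w (f i) ≤ B) : w (∑ i ∈ s, f i) ≤ B := by
  classical
  induction s using Finset.induction_on with
  | empty => simpa using hB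
  | insert a s ha ih =>
    rw [Finset.sum_insert ha]
    refine (hw _ _).trans (max_le (h a (Finset.mem_insert_self _ _)) (ih fun i hi => ?_))
    exact h i (Finset.mem_insert_of_mem hi)

theorem eval_le_cn (hw : NA w) (q : Polynomial L) (t : L) (ht : w t ≤ 1) :
    w (q.eval t) ≤ cn w q := by
  rw [Polynomial.eval_eq_sum_range]
  apply na_sum w hw _ _ _ (zero_le_one.trans (one_le_cn w q))
  intro j _
  rw [map_mul, map_pow]
  calc w (q.coeff j) * w t ^ j ≤ w (q.coeff j) * 1 :=
        mul_le_mul_of_nonneg_left (pow_le_one₀ (w.nonneg _) ht) (w.nonneg _)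
    _ = w (q.coeff j) := mul_one _
    _ ≤ _ := coeff_le_cn w q j

/-- the non-archimedean estimate -/
theorem na_bd (hw : NA w) (p U : Fin 4 → Polynomial L) (hU : ∑ i, U i * p i = 1) (t : L)
    (ht : w t ≤ 1) :
    mx w (fun i => (p i).eval t) ≤ (∏ i, cn w (p i)) * ∏ i, cn w (U i) ∧
    1 ≤ ((∏ i, cn w (p i)) * ∏ i, cn w (U i)) * mx w (fun i => (p i).eval t) := by
  have h1 : ∀ q : Fin 4 → Polynomial L, 1 ≤ ∏ i, cn w (q i) := fun q =>
    one_le_prodR _ _ fun _ _ => one_le_cn w _
  have h2 : ∀ (q : Fin 4 → Polynomial L) (i : Fin 4), cn w (q i) ≤ ∏ i, cn w (q i) := by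
    intro q i
    exact le_prodR _ (fun i => cn w (q i)) (fun _ _ => one_le_cn w _) (Finset.mem_univ i)
  have hmx0 : 0 ≤ mx w (fun i => (p i).eval t) := (w.nonneg _).trans (le_mx w _ 0)
  constructor
  · apply mx_le
    intro i
    refine (eval_le_cn w hw (p i) t ht).trans ((h2 p i).trans ?_)
    exact le_mul_of_one_le_right (zero_le_one.trans (h1 p)) (h1 U)
  · have e : (1 : L) = ∑ i, (U i).eval t * (p i).eval t := by
      have := congrArg (Polynomial.eval t) hU
      rw [Polynomial.eval_finsetSum, Polynomial.eval_one] at this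
      rw [← this]
      exact Finset.sum_congr rfl fun i _ => by rw [Polynomial.eval_mul]
    have h3 : w (1 : L) ≤ (∏ i, cn w (U i)) * mx w (fun i => (p i).eval t) := by
      rw [e]
      apply na_sum w hw _ _ _ (mul_nonneg (zero_le_one.trans (h1 U)) hmx0)
      intro i _
      rw [map_mul]
      exact mul_le_mul ((eval_le_cn w hw (U i) t ht).trans (h2 U i))
        (le_mx w (fun i => (p i).eval t) i) (w.nonneg _) (zero_le_one.trans (h1 U))
    rw [map_one] at h3
    refine h3.trans ?_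
    rw [mul_assoc]
    exact le_mul_of_one_le_left (mul_nonneg (zero_le_one.trans (h1 U)) hmx0) (h1 p)

/-- sum of the sizes of the coefficients -/
noncomputable def an (q : Polynomial L) : ℝ :=
  ∑ j ∈ Finset.range (q.natDegree + 1), w (q.coeff j)

theorem an_nonneg (q : Polynomial L) : 0 ≤ an w q := Finset.sum_nonneg fun _ _ => w.nonneg _

variable (hw : ∀ n : ℕ, w (n : L) = n)

include hw

theorem eval_le_an (q : Polynomial L) (n : ℕ) (hq : q.natDegree ≤ n) (t : ℤ) (ht : t ≠ 0) :
    w (q.eval (t : L)) ≤ an w q * |(t : ℝ)| ^ n := by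
  have ht1 : (1 : ℝ) ≤ |(t : ℝ)| := by
    have := Int.one_le_abs ht
    exact_mod_cast this
  rw [Polynomial.eval_eq_sum_range]
  refine (w.sum_le _ _).trans ?_
  rw [an, Finset.sum_mul]
  apply Finset.sum_le_sum
  intro j hj
  rw [map_mul, map_pow, abv_int w hw]
  apply mul_le_mul_of_nonneg_left _ (w.nonneg _)
  apply pow_le_pow_right₀ ht1
  have := Finset.mem_range.1 hj
  omega

theorem low_big (q : Polynomial L) (D : ℕ) (hq : q.natDegree ≤ D) (hc : q.coeff D ≠ 0) :
    ∃ c T : ℝ, 0 ≤ c ∧ 1 ≤ T ∧ ∀ t : ℤ, t ≠ 0 → T ≤ |(t : ℝ)| →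
      |(t : ℝ)| ^ D ≤ c * w (q.eval (t : L)) := by
  obtain ⟨γ, hγ⟩ : ∃ γ, γ = w (q.coeff D) := ⟨_, rfl⟩
  have hγ0 : 0 < γ := by rw [hγ]; exact w.pos hc
  obtain ⟨S, hS⟩ : ∃ S, S = ∑ i ∈ Finset.range D, w (q.coeff i) := ⟨_, rfl⟩
  have hS0 : 0 ≤ S := by rw [hS]; exact Finset.sum_nonneg fun i _ => w.nonneg _
  refine ⟨2 / γ, 2 * S / γ + 1, by positivity, by
    have : 0 ≤ 2 * S / γ := by positivity
    linarith, ?_⟩
  intro t ht hT
  have ht1 : (1 : ℝ) ≤ |(t : ℝ)| := by
    have := Int.one_le_abs ht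
    exact_mod_cast this
  have key : γ * |(t : ℝ)| ^ D ≤ w (q.eval (t : L)) + S * |(t : ℝ)| ^ (D - 1) := by
    have e1 : q.eval (t : L) = ∑ i ∈ Finset.range (D + 1), q.coeff i * (t : L) ^ i :=
      Polynomial.eval_eq_sum_range' (Nat.lt_succ_of_le hq) _
    rw [Finset.sum_range_succ] at e1
    have e2 : q.coeff D * (t : L) ^ D =
        q.eval (t : L) - ∑ i ∈ Finset.range D, q.coeff i * (t : L) ^ i := by
      rw [e1]; ring
    have e3 : γ * |(t : ℝ)| ^ D = w (q.coeff D * (t : L) ^ D) := by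
      rw [w.map_mul, w.map_pow, abv_int w hw, hγ]
    rw [e3, e2]
    refine (w.sub_le_add _ _).trans (add_le_add le_rfl ?_)
    refine (w.sum_le _ _).trans ?_
    rw [hS, Finset.sum_mul]
    apply Finset.sum_le_sum
    intro i hi
    rw [w.map_mul, w.map_pow, abv_int w hw]
    apply mul_le_mul_of_nonneg_left _ (w.nonneg _)
    apply pow_le_pow_right₀ ht1
    have := Finset.mem_range.1 hi
    omega
  have h4 : S * |(t : ℝ)| ^ (D - 1) ≤ γ / 2 * |(t : ℝ)| ^ D := by
    rcases Nat.eq_zero_or_pos D with h0 | h0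
    · subst h0
      have : S = 0 := by rw [hS]; simp
      rw [this, zero_mul]
      positivity
    · have h2 : |(t : ℝ)| ^ D = |(t : ℝ)| * |(t : ℝ)| ^ (D - 1) := by
        rw [← pow_succ']
        congr 1
        omega
      have h1 : 2 * S ≤ |(t : ℝ)| * γ := by
        have : 2 * S / γ ≤ |(t : ℝ)| := by linarith
        rwa [div_le_iff₀ hγ0] at this
      have h3 : 0 < |(t : ℝ)| ^ (D - 1) := by positivity
      rw [h2]
      nlinarith
  rw [div_mul_eq_mul_div, le_div_iff₀ hγ0]
  nlinarith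

/-- the archimedean estimate -/
theorem ar_bd (p U : Fin 4 → Polynomial L) (hU : ∑ i, U i * p i = 1) (D : ℕ)
    (hp : ∀ i, (p i).natDegree ≤ D) (hD : ∃ i, (p i).coeff D ≠ 0) :
    ∃ B : ℝ, 1 ≤ B ∧ ∀ t : ℤ, t ≠ 0 →
      mx w (fun i => (p i).eval (t : L)) ≤ B * |(t : ℝ)| ^ D ∧
      |(t : ℝ)| ^ D ≤ B * mx w (fun i => (p i).eval (t : L)) := by
  obtain ⟨i₀, hi₀⟩ := hD
  obtain ⟨c, T, hc, hT, hlow⟩ := low_big w hw (p i₀) D (hp i₀) hi₀
  obtain ⟨A, hA⟩ : ∃ A, A = ∑ i, an w (p i) := ⟨_, rfl⟩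
  obtain ⟨E, hE⟩ : ∃ E, E = ∑ i, an w (U i) * T ^ (U i).natDegree := ⟨_, rfl⟩
  have hA0 : 0 ≤ A := by rw [hA]; exact Finset.sum_nonneg fun _ _ => an_nonneg w _
  have hT0 : 0 ≤ T := by linarith
  have hE0 : 0 ≤ E := by
    rw [hE]
    exact Finset.sum_nonneg fun _ _ => mul_nonneg (an_nonneg w _) (pow_nonneg hT0 _)
  have hET : 0 ≤ E * T ^ D := mul_nonneg hE0 (pow_nonneg hT0 _)
  refine ⟨1 + A + c + E * T ^ D, by linarith, fun t ht => ?_⟩
  have ht1 : (1 : ℝ) ≤ |(t : ℝ)| := by
    have := Int.one_le_abs ht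
    exact_mod_cast this
  have htD : 0 < |(t : ℝ)| ^ D := by positivity
  have hm0 : 0 ≤ mx w (fun i => (p i).eval (t : L)) := (w.nonneg _).trans (le_mx w _ 0)
  constructor
  · apply mx_le
    intro i
    refine (eval_le_an w hw (p i) D (hp i) t ht).trans ?_
    apply mul_le_mul_of_nonneg_right _ htD.le
    have : an w (p i) ≤ A := by
      rw [hA]
      exact Finset.single_le_sum (f := fun i => an w (p i)) (fun _ _ => an_nonneg w _)
        (Finset.mem_univ i)
    linarith
  · by_cases hbig : T ≤ |(t : ℝ)|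
    · refine (hlow t ht hbig).trans ?_
      apply mul_le_mul _ (le_mx w (fun i => (p i).eval (t : L)) i₀) (w.nonneg _)
      · linarith
      · linarith
    · push Not at hbig
      have e : (1 : L) = ∑ i, (U i).eval (t : L) * (p i).eval (t : L) := by
        have := congrArg (Polynomial.eval (t : L)) hU
        rw [Polynomial.eval_finsetSum, Polynomial.eval_one] at this
        rw [← this]
        exact Finset.sum_congr rfl fun i _ => by rw [Polynomial.eval_mul]
      have h3 : w (1 : L) ≤ E * mx w (fun i => (p i).eval (t : L)) := by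
        rw [e, hE, Finset.sum_mul]
        refine (w.sum_le _ _).trans (Finset.sum_le_sum fun i _ => ?_)
        rw [map_mul]
        apply mul_le_mul _ (le_mx w (fun i => (p i).eval (t : L)) i) (w.nonneg _)
        · exact mul_nonneg (an_nonneg w _) (pow_nonneg hT0 _)
        · refine (eval_le_an w hw (U i) _ le_rfl t ht).trans ?_
          apply mul_le_mul_of_nonneg_left _ (an_nonneg w _)
          exact pow_le_pow_left₀ (abs_nonneg _) hbig.le _
      rw [map_one] at h3
      have h4 : |(t : ℝ)| ^ D ≤ T ^ D := pow_le_pow_left₀ (abs_nonneg _) hbig.le _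
      have h5 : 0 ≤ T ^ D := pow_nonneg hT0 _
      calc |(t : ℝ)| ^ D ≤ T ^ D * 1 := by rw [mul_one]; exact h4
        _ ≤ T ^ D * (E * mx w (fun i => (p i).eval (t : L))) := mul_le_mul_of_nonneg_left h3 h5
        _ = (E * T ^ D) * mx w (fun i => (p i).eval (t : L)) := by ring
        _ ≤ _ := mul_le_mul_of_nonneg_right (by linarith) hm0

end gen

theorem log_abs {m B x : ℝ} (hB : 1 ≤ B) (hm : 0 < m) (hx : 0 < x) (h1 : m ≤ B * x)
    (h2 : x ≤ B * m) : |Real.log m - Real.log x| ≤ Real.log B := by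
  have hB0 : 0 < B := by linarith
  have e1 := Real.log_le_log hm h1
  have e2 := Real.log_le_log hx h2
  rw [Real.log_mul hB0.ne' hx.ne'] at e1
  rw [Real.log_mul hB0.ne' hm.ne'] at e2
  rw [abs_le]
  constructor <;> linarith

theorem bez (p : Fin 4 → Polynomial Qb) (h : ∀ t : Qb, ∃ i, (p i).eval t ≠ 0) :
    ∃ U : Fin 4 → Polynomial Qb, ∑ i, U i * p i = 1 := by
  have htop : Ideal.span (Set.range p) = ⊤ := by
    obtain ⟨g, hg⟩ : ∃ g, Ideal.span (Set.range p) = Ideal.span {g} :=
      (IsPrincipalIdealRing.principal (Ideal.span (Set.range p))).principal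
    have hdvd : ∀ i, g ∣ p i := by
      intro i
      rw [← Ideal.mem_span_singleton, ← hg]
      exact Ideal.subset_span ⟨i, rfl⟩
    rw [hg, Ideal.span_singleton_eq_top]
    by_contra hu
    have hroot : ∃ t : Qb, g.IsRoot t := by
      by_cases hg0 : g = 0
      · exact ⟨0, by rw [hg0, Polynomial.IsRoot.def, Polynomial.eval_zero]⟩
      · apply IsAlgClosed.exists_root
        intro hd
        exact hu (Polynomial.isUnit_iff_degree_eq_zero.2 hd)
    obtain ⟨t, ht⟩ := hroot
    obtain ⟨i, hi⟩ := h t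
    exact hi (Polynomial.IsRoot.dvd ht (hdvd i))
  have h1 : (1 : Polynomial Qb) ∈ Ideal.span (Set.range p) := by rw [htop]; trivial
  rw [Ideal.mem_span_range_iff_exists_fun] at h1
  exact h1

theorem cn_const {K : IntermediateField ℚ Qb} (F : HFam K) (q : Polynomial Qb) :
    Const F fun i => cn (F.abv i) q := by
  classical
  refine ⟨fun i => one_le_cn _ q, ?_⟩
  have hfin : (⋃ j ∈ Finset.range (q.natDegree + 1),
      {i | max 1 (F.abv i (q.coeff j)) ≠ 1}).Finite := by
    apply Set.Finite.biUnion (Finset.finite_toSet _)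
    intro j _
    by_cases hj : q.coeff j = 0
    · have : {i | max 1 (F.abv i (q.coeff j)) ≠ 1} = ∅ := by
        ext i
        simp [hj]
      rw [this]
      exact Set.finite_empty
    · refine (F.finite (q.coeff j) hj).subset fun i hi h1 => hi ?_
      rw [h1, max_self]
  refine hfin.subset fun i hi => ?_
  by_contra hcon
  apply hi
  simp only [cn]
  apply Finset.prod_eq_one
  intro j hj
  by_contra hne
  apply hcon
  rw [Set.mem_iUnion₂]
  exact ⟨j, hj, hne⟩

theorem const_prod {K : IntermediateField ℚ Qb} (F : HFam K) (C : Fin 4 → F.ι → ℝ)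
    (h : ∀ j, Const F (C j)) : Const F fun i => ∏ j, C j i := by
  have := (((h 0).mul (h 1)).mul (h 2)).mul (h 3)
  simpa only [Fin.prod_univ_four] using this

/-- heights along a rational curve -/
theorem pf_LNX : T_LNX := by
  classical
  intro p D hD hDc hroot hp0 K F hK
  obtain ⟨U, hU⟩ := bez p hroot
  have har : ∀ i ∈ F.arch, ∃ B : ℝ, 1 ≤ B ∧ ∀ t : ℤ, t ≠ 0 →
      mx (F.abv i) (fun j => (p j).eval (t : Qb)) ≤ B * |(t : ℝ)| ^ D ∧
      |(t : ℝ)| ^ D ≤ B * mx (F.abv i) (fun j => (p j).eval (t : Qb)) :=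
    fun i hi => ar_bd (F.abv i) (F.arch_nat i hi) p U hU D hD hDc
  choose! B hB1 hB using har
  have hCc : Const F fun i => (∏ j, cn (F.abv i) (p j)) * ∏ j, cn (F.abv i) (U j) :=
    (const_prod F _ fun j => cn_const F (p j)).mul (const_prod F _ fun j => cn_const F (U j))
  obtain ⟨Cn, hCn⟩ : ∃ Cn : F.ι → ℝ, Cn = fun i =>
    (∏ j, cn (F.abv i) (p j)) * ∏ j, cn (F.abv i) (U j) := ⟨_, rfl⟩
  rw [← hCn] at hCc
  obtain ⟨b, hb⟩ : ∃ b : F.ι → ℝ, b = fun i =>
    if i ∈ F.arch then Real.log (B i) else Real.log (Cn i) := ⟨_, rfl⟩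
  have hbfin : (Function.support b).Finite := by
    refine (F.arch.finite_toSet.union hCc.log_finite).subset fun i hi => ?_
    by_cases ha : i ∈ F.arch
    · exact Or.inl ha
    · right
      rw [hb, Function.mem_support] at hi
      simpa [ha] using hi
  refine ⟨∑ᶠ i, b i, fun t ht hpt => ?_⟩
  have ht1 : (1 : ℝ) ≤ |(t : ℝ)| := by
    have := Int.one_le_abs ht
    exact_mod_cast this
  have htD : 0 < |(t : ℝ)| ^ D := by positivity
  obtain ⟨y, hy⟩ : ∃ y : Fin 4 → Qb, y = fun j => (p j).eval (t : Qb) := ⟨_, rfl⟩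
  have hy0 : y 0 ≠ 0 := by rw [hy]; exact hpt
  have hyK : y 0 ∈ K := by
    rw [hy]
    simp only
    rw [Polynomial.eval_eq_sum_range]
    exact sum_mem fun j _ => mul_mem (hK j) (pow_mem (intCast_mem K t) j)
  have hyx : (fun i : Fin 3 => (p i.succ).eval (t : Qb) / (p 0).eval (t : Qb)) =
      fun i : Fin 3 => y i.succ / y 0 := by
    rw [hy]
  rw [hyx]
  have hlogy : (Function.support fun i => Real.log (F.abv i (y 0))).Finite :=
    (F.finite (y 0) hy0).subset fun i hi h1 => hi (by simp only [h1, Real.log_one])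
  have hsz := log_sz_finite F (fun i : Fin 3 => y i.succ / y 0)
  have hmxpos : ∀ i, 0 < mx (F.abv i) y := by
    intro i
    rw [mx_eq _ hy0]
    exact mul_pos ((F.abv i).pos hy0) (sz_pos _ _)
  have hlogmx : ∀ i, Real.log (mx (F.abv i) y) =
      Real.log (F.abv i (y 0)) + Real.log (sz (F.abv i) fun i : Fin 3 => y i.succ / y 0) := by
    intro i
    rw [mx_eq _ hy0, Real.log_mul ((F.abv i).pos hy0).ne' (sz_pos _ _).ne']
  have hht : F.ht (fun i : Fin 3 => y i.succ / y 0) = ∑ᶠ i, Real.log (mx (F.abv i) y) := by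
    simp only [hlogmx]
    rw [finsum_add_distrib hlogy hsz, F.prod _ hyK hy0, zero_add]
    rfl
  have hmxfin : (Function.support fun i => Real.log (mx (F.abv i) y)).Finite := by
    simp only [hlogmx]
    exact (hlogy.union hsz).subset (Function.support_add _ _)
  obtain ⟨g, hg⟩ : ∃ g : F.ι → ℝ, g = fun i =>
    if i ∈ F.arch then Real.log (|(t : ℝ)| ^ D) else 0 := ⟨_, rfl⟩
  have hgs : Function.support g ⊆ F.arch := by
    intro i hi
    by_contra hc
    apply hi
    rw [hg]
    exact if_neg hc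
  have hgfin : (Function.support g).Finite := F.arch.finite_toSet.subset hgs
  have hgsum : (D : ℝ) * (F.arch.card * Real.log |(t : ℝ)|) = ∑ᶠ i, g i := by
    rw [finsum_eq_sum_of_support_subset g hgs, hg]
    rw [Finset.sum_congr rfl fun i hi => if_pos hi, Finset.sum_const, nsmul_eq_mul, Real.log_pow]
    ring
  rw [hht, hgsum]
  have hle : ∀ i, |Real.log (mx (F.abv i) y) - g i| ≤ b i := by
    intro i
    rw [hg, hb]
    by_cases ha : i ∈ F.arch
    · simp only [if_pos ha]
      obtain ⟨h1, h2⟩ := hB i ha t ht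
      rw [← hy] at h1 h2
      exact log_abs (hB1 i ha) (hmxpos i) htD h1 h2
    · simp only [if_neg ha]
      have hna := F.na i ha
      obtain ⟨h1, h2⟩ := na_bd (F.abv i) hna p U hU (t : Qb) (na_int _ hna t)
      rw [← hy] at h1 h2
      have h3 := log_abs (x := 1) (B := Cn i) (hCc.one_le i) (hmxpos i) one_pos
        (by rw [mul_one, hCn]; exact h1) (by rw [hCn]; exact h2)
      rwa [Real.log_one] at h3
  have hup : ∑ᶠ i, Real.log (mx (F.abv i) y) ≤ ∑ᶠ i, (g i + b i) := by
    apply finsum_le_finsum' hmxfin ((hgfin.union hbfin).subset (Function.support_add _ _))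
    intro i
    have := (abs_le.1 (hle i)).2
    linarith
  have hlo : ∑ᶠ i, g i ≤ ∑ᶠ i, (Real.log (mx (F.abv i) y) + b i) := by
    apply finsum_le_finsum' hgfin ((hmxfin.union hbfin).subset (Function.support_add _ _))
    intro i
    have := (abs_le.1 (hle i)).1
    linarith
  rw [finsum_add_distrib hgfin hbfin] at hup
  rw [finsum_add_distrib hmxfin hbfin] at hlo
  rw [abs_le]
  constructor <;> linarith

end Pool.Agent.H10.TD
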